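import Pool.Agent.helper19.HF.SpecB
import Pool.Agent.helper49.IT.ADO

/-!
# Row hf:ADK (MP_bf63dc_nt): admissibility of k forms of an orbit, spec Pool/Agent/helper19/HF/SpecB.lean
-/

set_option autoImplicit false

namespace Pool.Agent.HF

open Finset Pool.Agent.AT Pool.Agent.IT

/-- the criterion in a prime field -/
theorem ADK_X {K : Type} [Field K] {k : ℕ} (A B C : K) (hA : A ≠ 0) (hB : B ≠ 0) (H : ℕ → K) (E : ℕ)
    (hH : ∀ i < E, A * H (i + 1) = B * H i + C) (e : Fin k → ℕ) (he : ∀ i, e i ≤ E) (X : K)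
    (hX : ∀ i, X + C * (B⁻¹ * ∑ j ∈ range (e i), (A / B) ^ j) ≠ 0) :
    ∃ x : K, ∀ i, A ^ (E - e i) * B ^ (e i) * x + H (e i) ≠ 0 := by
  refine ⟨(X - H 0) / A ^ E, ?_⟩
  intro i h0
  have h1 := ADO_rec A B C hB H E hH (e i) (he i)
  have h2 : A ^ (e i) * (A ^ (E - e i) * B ^ (e i) * ((X - H 0) / A ^ E) + H (e i)) =
      B ^ (e i) * (X + C * (B⁻¹ * ∑ j ∈ range (e i), (A / B) ^ j)) := by
    rw [mul_add, h1]
    have h3 : A ^ (e i) * (A ^ (E - e i) * B ^ (e i) * ((X - H 0) / A ^ E)) = B ^ (e i) * (X - H 0) := by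
      have h4 : A ^ E = A ^ (e i) * A ^ (E - e i) := by
        rw [← pow_add]; congr 1; have := he i; omega
      have h5 : A ^ E ≠ 0 := pow_ne_zero _ hA
      calc A ^ (e i) * (A ^ (E - e i) * B ^ (e i) * ((X - H 0) / A ^ E))
          = (A ^ (e i) * A ^ (E - e i)) * (B ^ (e i) * (X - H 0)) / A ^ E := by ring
        _ = A ^ E * (B ^ (e i) * (X - H 0)) / A ^ E := by rw [← h4]
        _ = B ^ (e i) * (X - H 0) := by field_simp
    rw [h3]; ring
  rw [h0, mul_zero] at h2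
  have h6 : B ^ (e i) ≠ 0 := pow_ne_zero _ hB
  rcases mul_eq_zero.mp h2.symm with h | h
  · exact h6 h
  · exact hX i h

/-- the geometric sum vanishes -/
theorem ADK_geo {l : ℕ} [Fact l.Prime] (r : ZMod l) (hr : r ≠ 0) (n : ℕ) (h1 : l ∣ n) (h2 : (l - 1) ∣ n) : ∑ j ∈ range n, r ^ j = 0 := by
  by_cases hr1 : r = 1
  · rw [hr1]
    simp only [one_pow, sum_const, card_range, nsmul_eq_mul, mul_one]
    exact (ZMod.natCast_eq_zero_iff n l).mpr h1
  · have h3 : (∑ j ∈ range n, r ^ j) * (r - 1) = r ^ n - 1 := geom_sum_mul r n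
    have h4 : r ^ n = 1 := by
      obtain ⟨m, hm⟩ := h2
      rw [hm, pow_mul, ZMod.pow_card_sub_one_eq_one hr, one_pow]
    rw [h4, sub_self] at h3
    rcases mul_eq_zero.mp h3 with h | h
    · exact h
    · exact absurd (sub_eq_zero.mp h) hr1

theorem ADK : ADK_stmt := by
  intro k a b E c e h hAd hrec he hfac
  obtain ⟨ha, hb, hc0, hab, hac, hbc, hodd⟩ := hAd
  intro l hl
  haveI : Fact l.Prime := ⟨hl⟩
  -- reduction to a statement in `ZMod l`
  suffices hx : ∃ x : ZMod l, ∀ i, (a : ZMod l) ^ (E - e i) * (b : ZMod l) ^ (e i) * x + ((h (e i) : ℤ) : ZMod l) ≠ 0 by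
    obtain ⟨x, hx⟩ := hx
    refine ⟨x.val, ?_⟩
    intro i hdvd
    apply hx i
    have h1 := (ZMod.intCast_zmod_eq_zero_iff_dvd _ l).mpr hdvd
    push_cast at h1
    rw [ZMod.natCast_zmod_val] at h1
    exact h1
  have hrecZ : ∀ i < E, (a : ZMod l) * ((h (i + 1) : ℤ) : ZMod l) = (b : ZMod l) * ((h i : ℤ) : ZMod l) + (c : ZMod l) := by
    intro i hi
    have h1 := congrArg (fun z : ℤ => (z : ZMod l)) (hrec i hi)
    push_cast at h1
    exact h1
  have zero_nat : ∀ m : ℕ, (m : ZMod l) = 0 ↔ l ∣ m := fun m => ZMod.natCast_eq_zero_iff m l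
  have zero_int : ∀ m : ℤ, (m : ZMod l) = 0 ↔ (l : ℤ) ∣ m := fun m => ZMod.intCast_zmod_eq_zero_iff_dvd m l
  have hlp : Prime (l : ℤ) := Nat.prime_iff_prime_int.mp hl
  by_cases hA : (a : ZMod l) = 0
  · have hla : l ∣ a := (zero_nat a).mp hA
    have hB : (b : ZMod l) ≠ 0 := by
      intro h0
      have hlb : l ∣ b := (zero_nat b).mp h0
      have := Nat.dvd_gcd hla hlb
      rw [Nat.Coprime.gcd_eq_one hab] at this
      exact hl.one_lt.ne' (Nat.dvd_one.mp this)
    have hC : (c : ZMod l) ≠ 0 := by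
      intro h0
      have hlc : (l : ℤ) ∣ c := (zero_int c).mp h0
      have hla' : (l : ℤ) ∣ (a : ℤ) := Int.natCast_dvd_natCast.mpr hla
      exact hlp.not_isUnit (hac.isUnit_of_dvd' hla' hlc)
    refine ⟨(1 - ((h E : ℤ) : ZMod l)) / (b : ZMod l) ^ E, ?_⟩
    intro i
    by_cases hi : e i = E
    · rw [hi, Nat.sub_self, pow_zero, one_mul]
      have h5 : (b : ZMod l) ^ E ≠ 0 := pow_ne_zero _ hB
      rw [mul_div_cancel₀ _ h5]
      simp
    · have hlt : e i < E := lt_of_le_of_ne (he i) hi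
      have h1 := hrecZ (e i) hlt
      rw [hA, zero_mul] at h1
      rw [hA, zero_pow (by omega : E - e i ≠ 0), zero_mul, zero_mul, zero_add]
      intro h0
      rw [h0, mul_zero, zero_add] at h1
      exact hC h1.symm
  by_cases hB : (b : ZMod l) = 0
  · have hC : (c : ZMod l) ≠ 0 := by
      intro h0
      have hlc : (l : ℤ) ∣ c := (zero_int c).mp h0
      have hlb' : (l : ℤ) ∣ (b : ℤ) := Int.natCast_dvd_natCast.mpr ((zero_nat b).mp hB)
      exact hlp.not_isUnit (hbc.isUnit_of_dvd' hlb' hlc)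
    refine ⟨(1 - ((h 0 : ℤ) : ZMod l)) / (a : ZMod l) ^ E, ?_⟩
    intro i
    by_cases hi : e i = 0
    · rw [hi, Nat.sub_zero, pow_zero, mul_one]
      have h5 : (a : ZMod l) ^ E ≠ 0 := pow_ne_zero _ hA
      rw [mul_div_cancel₀ _ h5]
      simp
    · obtain ⟨m, hm⟩ := Nat.exists_eq_succ_of_ne_zero hi
      have hlt : m < E := by have := he i; omega
      have h1 := hrecZ m hlt
      rw [hB, zero_mul, zero_add] at h1
      rw [hB, zero_pow hi, mul_zero, zero_mul, zero_add, hm]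
      intro h0
      rw [Nat.succ_eq_add_one] at h0
      rw [h0, mul_zero] at h1
      exact hC h1.symm
  -- now `l` does not divide `a b`
  suffices hX : ∃ X : ZMod l, ∀ i, X + (c : ZMod l) * ((b : ZMod l)⁻¹ * ∑ j ∈ range (e i), ((a : ZMod l) / (b : ZMod l)) ^ j) ≠ 0 by
    obtain ⟨X, hX⟩ := hX
    exact ADK_X (a : ZMod l) (b : ZMod l) (c : ZMod l) hA hB (fun j => ((h j : ℤ) : ZMod l)) E hrecZ e he X hX
  by_cases hlk : l ≤ k
  · refine ⟨1, ?_⟩
    intro i
    have h1 : l ∣ k.factorial := hl.dvd_factorial.mpr hlk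
    have h2 : (l - 1) ∣ k.factorial := Nat.dvd_factorial (by have := hl.two_le; omega) (by omega)
    have h3 : k.factorial ∣ e i := (Dvd.intro_left (k.factorial) (by rw [sq])).trans (hfac i)
    rw [ADK_geo _ (div_ne_zero hA hB) (e i) (h1.trans h3) (h2.trans h3), mul_zero, mul_zero, add_zero]
    exact one_ne_zero
  · classical
    have hcard : (Finset.image (fun i => -((c : ZMod l) * ((b : ZMod l)⁻¹ * ∑ j ∈ range (e i), ((a : ZMod l) / (b : ZMod l)) ^ j))) (Finset.univ : Finset (Fin k))).card < Fintype.card (ZMod l) := by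
      rw [ZMod.card]
      refine lt_of_le_of_lt Finset.card_image_le ?_
      rw [Finset.card_univ, Fintype.card_fin]
      omega
    obtain ⟨X, hX⟩ : ∃ X : ZMod l, X ∉ Finset.image (fun i => -((c : ZMod l) * ((b : ZMod l)⁻¹ * ∑ j ∈ range (e i), ((a : ZMod l) / (b : ZMod l)) ^ j))) (Finset.univ : Finset (Fin k)) := by
      by_contra hcon
      push Not at hcon
      rw [Finset.eq_univ_iff_forall.mpr hcon, Finset.card_univ] at hcard
      exact lt_irrefl _ hcard
    refine ⟨X, fun i h0 => hX ?_⟩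
    rw [Finset.mem_image]
    exact ⟨i, Finset.mem_univ _, (eq_neg_of_add_eq_zero_left h0).symm⟩

end Pool.Agent.HF
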